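import Pool.Agent.Lib.MP_1a91b9_ntT.S4.Quad

/-!
# G4: the places of a Galois extension of prime degree
-/

set_option autoImplicit false

namespace Pool.Agent.Lib.MP_1a91b9_ntG

open NumberField IsDedekindDomain Pool.Agent.Lib.MP_1a91b9_nt Pool.Agent.Lib.MP_1a91b9_ntT
  Pool.Agent.Lib.MP_1a91b9_ntT.S4

universe u

/-- The prime `v` of `F` ramifies in `F'`. -/
def Ram {F : Type*} [Field F] (F' : Type*) [Field F'] [Algebra F F']
    (v : HeightOneSpectrum (𝓞 F)) : Prop :=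
  ∃ w : HeightOneSpectrum (𝓞 F'), v.asIdeal.map (algebraMap (𝓞 F) (𝓞 F')) ≤ w.asIdeal ^ 2

section
variable {F F' : Type u} [Field F] [NumberField F] [Field F'] [NumberField F'] [Algebra F F']

omit [NumberField F'] in
theorem under_of_le {v : HeightOneSpectrum (𝓞 F)} {w : HeightOneSpectrum (𝓞 F')}
    (h : v.asIdeal.map (algebraMap (𝓞 F) (𝓞 F')) ≤ w.asIdeal) :
    w.asIdeal.under (𝓞 F) = v.asIdeal := by
  have h1 : v.asIdeal ≤ w.asIdeal.under (𝓞 F) := Ideal.map_le_iff_le_comap.mp h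
  have hp : (w.asIdeal.under (𝓞 F)).IsPrime := inferInstance
  exact (v.isMaximal.eq_of_le hp.ne_top h1).symm

omit [NumberField F] [NumberField F'] in
theorem map_le_of_under {v : HeightOneSpectrum (𝓞 F)} {w : HeightOneSpectrum (𝓞 F')}
    (h : w.asIdeal.under (𝓞 F) = v.asIdeal) :
    v.asIdeal.map (algebraMap (𝓞 F) (𝓞 F')) ≤ w.asIdeal := by
  rw [Ideal.map_le_iff_le_comap]
  exact h.ge

theorem le_sq_iff {v : HeightOneSpectrum (𝓞 F)} {w : HeightOneSpectrum (𝓞 F')}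
    (h : w.asIdeal.under (𝓞 F) = v.asIdeal) :
    v.asIdeal.map (algebraMap (𝓞 F) (𝓞 F')) ≤ w.asIdeal ^ 2 ↔
      w.asIdeal.ramificationIdx (𝓞 F) ≠ 1 := by
  have i1 : w.asIdeal.IsPrime := w.isPrime
  have i2 : w.asIdeal.LiesOver v.asIdeal := ⟨h.symm⟩
  rw [← Ideal.ramificationIdx'_eq_ramificationIdx v.asIdeal w.asIdeal v.ne_bot,
    Ideal.ramificationIdx'_ne_one_iff (map_le_of_under h)]

omit [NumberField F] in
theorem nonempty_over (v : HeightOneSpectrum (𝓞 F)) : Nonempty (Over F' v) := by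
  have hvp : v.asIdeal.IsPrime := v.isPrime
  obtain ⟨⟨P, hP, hPv⟩⟩ := (inferInstance : Nonempty (Ideal.primesOver v.asIdeal (𝓞 F')))
  have hP0 : P ≠ ⊥ := by
    rintro rfl
    have h1 : v.asIdeal = (⊥ : Ideal (𝓞 F')).under (𝓞 F) := hPv.over
    apply v.ne_bot
    rw [h1]
    exact Ideal.comap_bot_of_injective _ (FaithfulSMul.algebraMap_injective _ _)
  exact ⟨⟨⟨P, hP, hP0⟩, hPv.over.symm⟩⟩

theorem ram_iff [IsGalois F F'] (v : HeightOneSpectrum (𝓞 F)) :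
    Ram F' v ↔ Ideal.ramificationIdxIn v.asIdeal (𝓞 F') ≠ 1 := by
  have hvp : v.asIdeal.IsPrime := v.isPrime
  constructor
  · rintro ⟨w, hw⟩
    have h := under_of_le (hw.trans (Ideal.pow_le_self two_ne_zero))
    have i1 : w.asIdeal.IsPrime := w.isPrime
    have i2 : w.asIdeal.LiesOver v.asIdeal := ⟨h.symm⟩
    rw [Ideal.ramificationIdxIn_eq_ramificationIdx v.asIdeal w.asIdeal Gal(F'/F)]
    exact (le_sq_iff h).mp hw
  · intro he
    obtain ⟨w, h⟩ := nonempty_over (F' := F') v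
    have i1 : w.asIdeal.IsPrime := w.isPrime
    have i2 : w.asIdeal.LiesOver v.asIdeal := ⟨h.symm⟩
    rw [Ideal.ramificationIdxIn_eq_ramificationIdx v.asIdeal w.asIdeal Gal(F'/F)] at he
    exact ⟨w, (le_sq_iff h).mpr he⟩

/-- The three kinds of places. -/
theorem cyc_cases {ℓ : ℕ} (hℓ : ℓ.Prime) [IsGalois F F'] (hL : Module.finrank F F' = ℓ)
    (v : HeightOneSpectrum (𝓞 F)) :
    (¬ Ram F' v ∧ Fintype.card (Over F' v) = ℓ ∧
      ∀ w : Over F' v, w.1.asIdeal.inertiaDeg (𝓞 F) = 1 ∧ nrm w.1 = nrm v) ∨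
    (¬ Ram F' v ∧ Fintype.card (Over F' v) = 1 ∧
      ∀ w : Over F' v, w.1.asIdeal.inertiaDeg (𝓞 F) = ℓ ∧ nrm w.1 = nrm v ^ ℓ) ∨
    (Ram F' v ∧ Fintype.card (Over F' v) = 1 ∧
      ∀ w : Over F' v, w.1.asIdeal.inertiaDeg (𝓞 F) = 1 ∧ nrm w.1 = nrm v) := by
  have hvp : v.asIdeal.IsPrime := v.isPrime
  have hvm : v.asIdeal.IsMaximal := v.isMaximal
  have hfund := Ideal.ncard_primesOver_mul_ramificationIdxIn_mul_inertiaDegIn v.asIdeal (𝓞 F')
    Gal(F'/F)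
  have hcard : Nat.card Gal(F'/F) = ℓ := by
    rw [IsGalois.card_aut_eq_finrank, hL]
  rw [hcard] at hfund
  have hdeg : ∀ w : Over F' v,
      w.1.asIdeal.inertiaDeg (𝓞 F) = Ideal.inertiaDegIn v.asIdeal (𝓞 F') := by
    intro w
    have i1 : w.1.asIdeal.IsPrime := w.1.isPrime
    have i2 : w.1.asIdeal.LiesOver v.asIdeal := ⟨w.2.symm⟩
    exact (Ideal.inertiaDegIn_eq_inertiaDeg v.asIdeal w.1.asIdeal Gal(F'/F)).symm
  have hnrm : ∀ w : Over F' v, nrm w.1 = nrm v ^ Ideal.inertiaDegIn v.asIdeal (𝓞 F') := by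
    intro w
    have i2 : w.1.asIdeal.LiesOver v.asIdeal := ⟨w.2.symm⟩
    rw [nrm_eq, nrm_eq, ← hdeg w, Ideal.absNorm_pow_inertiaDeg v.asIdeal w.1.asIdeal]
  have hc : Fintype.card (Over F' v) = (v.asIdeal.primesOver (𝓞 F')).ncard := by
    rw [← card_over_eq, Nat.card_eq_fintype_card]
  rw [hc, ram_iff]
  set g := (v.asIdeal.primesOver (𝓞 F')).ncard with hg
  set e := Ideal.ramificationIdxIn v.asIdeal (𝓞 F') with he
  set f := Ideal.inertiaDegIn v.asIdeal (𝓞 F') with hf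
  have h1ℓ : ℓ ≠ 1 := hℓ.one_lt.ne'
  have hdvd : g ∣ ℓ := ⟨_, hfund.symm⟩
  have hdvdf : f ∣ ℓ := ⟨g * e, by rw [← hfund]; ring⟩
  rcases (Nat.dvd_prime hℓ).mp hdvd with h1 | h1
  · rw [h1, one_mul] at hfund
    rcases (Nat.dvd_prime hℓ).mp hdvdf with h2 | h2
    · rw [h2, mul_one] at hfund
      refine Or.inr (Or.inr ⟨by rw [hfund]; exact h1ℓ, h1,
        fun w => ⟨by rw [hdeg w, h2], by rw [hnrm w, h2, pow_one]⟩⟩)
    · rw [h2] at hfund
      have he1 : e = 1 := by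
        have hpos : 0 < ℓ := hℓ.pos
        exact Nat.eq_of_mul_eq_mul_right hpos (by rw [hfund, one_mul])
      exact Or.inr (Or.inl ⟨by rw [he1]; simp, h1,
        fun w => ⟨by rw [hdeg w, h2], by rw [hnrm w, h2]⟩⟩)
  · rw [h1] at hfund
    have h3 : e * f = 1 := Nat.eq_of_mul_eq_mul_left hℓ.pos (by rw [hfund, mul_one])
    have h4 : f = 1 := Nat.eq_one_of_mul_eq_one_left h3
    have h5 : e = 1 := Nat.eq_one_of_mul_eq_one_right h3
    exact Or.inl ⟨by rw [h5]; simp, h1, fun w => ⟨by rw [hdeg w, h4], by rw [hnrm w, h4, pow_one]⟩⟩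

/-- Only finitely many places ramify. -/
theorem finite_ram (F' : Type u) [Field F'] [NumberField F'] [Algebra F F'] :
    {v : HeightOneSpectrum (𝓞 F) | Ram F' v}.Finite := by
  have h0 : differentIdeal (𝓞 F) (𝓞 F') ≠ ⊥ := differentIdeal_ne_bot
  have hfin := Ideal.finite_factors h0
  refine (hfin.image fun w => w.under (𝓞 F)).subset ?_
  rintro v ⟨w, hw⟩
  have h := under_of_le (hw.trans (Ideal.pow_le_self two_ne_zero))
  have hvm : v.asIdeal.IsMaximal := v.isMaximal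
  refine ⟨w, ?_, HeightOneSpectrum.ext h⟩
  have h1 := pow_sub_one_dvd_differentIdeal (A := 𝓞 F) (B := 𝓞 F') w.asIdeal 2 v.ne_bot
    (Ideal.dvd_iff_le.mpr hw)
  rw [pow_one] at h1
  exact h1

end

end Pool.Agent.Lib.MP_1a91b9_ntG
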