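import Pool.Agent.Lib.MP_1a91b9_ntG.Psi
import Pool.Agent.Lib.MP_1a91b9_ntG.Mul
import Pool.Agent.Lib.MP_1a91b9_ntG.Ram

/-!
# G4: the L-series of `ψbar` over a cyclic extension of prime degree
-/

set_option autoImplicit false

namespace Pool.Agent.Lib.MP_1a91b9_ntG

open NumberField IsDedekindDomain Pool.Agent.Lib.MP_1a91b9_nt Pool.Agent.Lib.MP_1a91b9_ntT
  Pool.Agent.Lib.MP_1a91b9_ntT.S4

universe u

section roots
variable {ℓ : ℕ} [hℓ : Fact ℓ.Prime]

/-- the product of `1 - ζ^j X` over the residues `j` -/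
theorem prod_one_sub (X : ℂ) :
    ∏ j : ZMod ℓ, (1 - ZMod.stdAddChar j * X) = 1 - X ^ ℓ := by
  classical
  have hprim := Complex.isPrimitiveRoot_exp ℓ hℓ.out.ne_zero
  have h := hprim.pow_sub_pow_eq_prod_sub_mul (1 : ℂ) X hℓ.out.pos
  have himg : Finset.univ.image (fun j : ZMod ℓ => (ZMod.stdAddChar j : ℂ)) =
      Polynomial.nthRootsFinset ℓ (1 : ℂ) := by
    refine Finset.eq_of_subset_of_card_le ?_ ?_
    · intro z hz
      obtain ⟨j, -, rfl⟩ := Finset.mem_image.mp hz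
      rw [Polynomial.mem_nthRootsFinset hℓ.out.pos, ← AddChar.map_nsmul_eq_pow]
      have : ℓ • j = 0 := by rw [nsmul_eq_mul, ZMod.natCast_self, zero_mul]
      rw [this, AddChar.map_zero_eq_one]
    · rw [hprim.card_nthRootsFinset, Finset.card_image_of_injective _ ZMod.injective_stdAddChar,
        Finset.card_univ, ZMod.card]
  rw [← himg, Finset.prod_image (fun a _ b _ hab => ZMod.injective_stdAddChar hab), one_pow] at h
  exact h.symm

theorem prod_one_sub_mul (a : ZMod ℓ) (ha : a ≠ 0) (X : ℂ) :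
    ∏ j : ZMod ℓ, (1 - ZMod.stdAddChar (j * a) * X) = 1 - X ^ ℓ := by
  rw [← prod_one_sub X]
  exact Fintype.prod_bijective (fun j : ZMod ℓ => j * a) (mulRight_bijective₀ a ha) _ _
    fun j => rfl

end roots

section
variable {F F' : Type u} [Field F] [NumberField F] [Field F'] [NumberField F'] [Algebra F F']

/-- The character data of a cyclic extension of prime degree `ℓ` (class field theory). -/
structure CFData (ℓ : ℕ) (F' : Type u) [Field F'] [NumberField F'] [Algebra F F']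
    (x : HeightOneSpectrum (𝓞 F) → ZMod ℓ) : Prop where
  split : ∀ v, ¬ Ram F' v → (x v = 0 ↔ Fintype.card (Over F' v) = ℓ)
  recip : ∀ z : 𝓞 F, z ≠ 0 → (∀ v : HeightOneSpectrum (𝓞 F), Ram F' v → z - 1 ∈ v.asIdeal) →
    addI x (Ideal.span {z}) = 0

open Classical in
/-- the `j`-th character at the places; it vanishes at the ramified places if `j ≠ 0` -/
noncomputable def cj {ℓ : ℕ} [NeZero ℓ] (F' : Type u) [Field F'] [Algebra F F']
    (x : HeightOneSpectrum (𝓞 F) → ZMod ℓ) (j : ZMod ℓ) (v : HeightOneSpectrum (𝓞 F)) : ℂ :=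
  if Ram F' v then 0 else ZMod.stdAddChar (j * x v)

variable [Algebra K F] [Algebra K F'] [IsScalarTower K F F'] (f : 𝓞 K) [hf : IsMod f]

include hf in
/-- `ψ_{F'}` at a place above `v` -/
theorem ps_over (v : HeightOneSpectrum (𝓞 F)) (w : Over F' v) :
    ps f F' w.1.asIdeal = ps f F v.asIdeal ^ w.1.asIdeal.inertiaDeg (𝓞 F) := by
  have hvm : v.asIdeal.IsMaximal := v.isMaximal
  have hwm : w.1.asIdeal.IsMaximal := w.1.isMaximal
  have i2 : w.1.asIdeal.LiesOver v.asIdeal := ⟨w.2.symm⟩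
  have hst : IsScalarTower (𝓞 K) (𝓞 F) (𝓞 F') := inferInstance
  have h1 : Ideal.relNorm (𝓞 F) w.1.asIdeal = v.asIdeal ^ w.1.asIdeal.inertiaDeg (𝓞 F) :=
    Ideal.relNorm_eq_pow_of_isMaximal w.1.asIdeal v.asIdeal
  have h2 : Ideal.relNorm (𝓞 K) w.1.asIdeal =
      Ideal.relNorm (𝓞 K) (Ideal.relNorm (𝓞 F) w.1.asIdeal) :=
    (Ideal.relNorm_relNorm (𝓞 K) (𝓞 F) w.1.asIdeal).symm
  rw [ps, h2, h1, map_pow, psK_pow]
  rfl

include hf in
theorem psbC_over (v : HeightOneSpectrum (𝓞 F)) (w : Over F' v) :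
    psbC f F' w.1.asIdeal = psbC f F v.asIdeal ^ w.1.asIdeal.inertiaDeg (𝓞 F) := by
  rw [psbC, psC, ps_over f v w, psbC, psC]
  simp

variable {ℓ : ℕ} [hℓ : Fact ℓ.Prime]

include hf in
/-- The factorisation of the Euler factor. -/
theorem euler_cyc [IsGalois F F'] (hL : Module.finrank F F' = ℓ)
    (x : HeightOneSpectrum (𝓞 F) → ZMod ℓ) (hx : CFData ℓ F' x) (v : HeightOneSpectrum (𝓞 F))
    (s : ℂ) :
    ∏ w : Over F' v, (1 - psbC f F' w.1.asIdeal * (Ideal.absNorm w.1.asIdeal : ℂ) ^ (-s))⁻¹ =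
      (1 - psbC f F v.asIdeal * (Ideal.absNorm v.asIdeal : ℂ) ^ (-s))⁻¹ *
      ∏ j ∈ Finset.univ.erase (0 : ZMod ℓ),
        (1 - psbC f F v.asIdeal * cj F' x j v * (Ideal.absNorm v.asIdeal : ℂ) ^ (-s))⁻¹ := by
  classical
  have hsplit : ∀ g : ZMod ℓ → ℂ, g 0 * ∏ j ∈ Finset.univ.erase (0 : ZMod ℓ), g j =
      ∏ j, g j := fun g => Finset.mul_prod_erase _ _ (Finset.mem_univ 0)
  rcases cyc_cases hℓ.out hL v with ⟨h0, h1, h2⟩ | ⟨h0, h1, h2⟩ | ⟨h0, h1, h2⟩
  · have hx0 : x v = 0 := (hx.split v h0).mpr h1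
    have hc : ∀ j, cj F' x j v = 1 := by
      intro j
      rw [cj, if_neg h0, hx0, mul_zero, AddChar.map_zero_eq_one]
    simp only [hc, mul_one]
    rw [hsplit (fun _ => (1 - psbC f F v.asIdeal * (Ideal.absNorm v.asIdeal : ℂ) ^ (-s))⁻¹)]
    rw [Finset.prod_congr rfl (g := fun _ =>
      (1 - psbC f F v.asIdeal * (Ideal.absNorm v.asIdeal : ℂ) ^ (-s))⁻¹)]
    · rw [Finset.prod_const, Finset.prod_const, Finset.card_univ, h1, Finset.card_univ, ZMod.card]
    · intro w _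
      have h3 := (h2 w).2
      rw [nrm_eq, nrm_eq] at h3
      rw [psbC_over f v w, (h2 w).1, pow_one, h3]
  · have hx0 : x v ≠ 0 := by
      intro h
      have := (hx.split v h0).mp h
      rw [h1] at this
      exact hℓ.out.one_lt.ne this
    have hc : ∀ j, cj F' x j v = ZMod.stdAddChar (j * x v) := by
      intro j
      rw [cj, if_neg h0]
    have hc0 : cj F' x 0 v = 1 := by
      rw [hc, zero_mul, AddChar.map_zero_eq_one]
    have e1 : (1 - psbC f F v.asIdeal * (Ideal.absNorm v.asIdeal : ℂ) ^ (-s))⁻¹ =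
        (1 - psbC f F v.asIdeal * cj F' x 0 v * (Ideal.absNorm v.asIdeal : ℂ) ^ (-s))⁻¹ := by
      rw [hc0, mul_one]
    rw [e1, hsplit (fun j => (1 - psbC f F v.asIdeal * cj F' x j v *
      (Ideal.absNorm v.asIdeal : ℂ) ^ (-s))⁻¹)]
    have e2 : ∏ j : ZMod ℓ, (1 - psbC f F v.asIdeal * cj F' x j v *
        (Ideal.absNorm v.asIdeal : ℂ) ^ (-s)) =
        1 - (psbC f F v.asIdeal * (Ideal.absNorm v.asIdeal : ℂ) ^ (-s)) ^ ℓ := by
      rw [← prod_one_sub_mul (x v) hx0]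
      refine Finset.prod_congr rfl fun j _ => ?_
      rw [hc]
      ring
    rw [Finset.prod_inv_distrib (f := fun j => 1 - psbC f F v.asIdeal * cj F' x j v *
      (Ideal.absNorm v.asIdeal : ℂ) ^ (-s)), e2]
    rw [Finset.prod_congr rfl (g := fun _ =>
      (1 - (psbC f F v.asIdeal * (Ideal.absNorm v.asIdeal : ℂ) ^ (-s)) ^ ℓ)⁻¹)]
    · rw [Finset.prod_const, Finset.card_univ, h1, pow_one]
    · intro w _
      have h3 := (h2 w).2
      rw [nrm_eq, nrm_eq] at h3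
      rw [psbC_over f v w, (h2 w).1, h3, mul_pow]
      congr 3
      rw [Nat.cast_pow, ← Complex.natCast_cpow_natCast_mul, Complex.cpow_nat_mul]
  · have hc : ∀ j, cj F' x j v = 0 := by
      intro j
      rw [cj, if_pos h0]
    simp only [hc, mul_zero, zero_mul, sub_zero, inv_one, Finset.prod_const_one, mul_one]
    rw [Finset.prod_congr rfl (g := fun _ =>
      (1 - psbC f F v.asIdeal * (Ideal.absNorm v.asIdeal : ℂ) ^ (-s))⁻¹)]
    · rw [Finset.prod_const, Finset.card_univ, h1, pow_one]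
    · intro w _
      have h3 := (h2 w).2
      rw [nrm_eq, nrm_eq] at h3
      rw [psbC_over f v w, (h2 w).1, pow_one, h3]

end

section
variable {F F' : Type u} [Field F] [NumberField F] [Field F'] [NumberField F'] [Algebra F F']
  [Algebra K F] [Algebra K F'] [IsScalarTower K F F'] (f : 𝓞 K) [hf : IsMod f]
  {ℓ : ℕ} [hℓ : Fact ℓ.Prime]

omit [NumberField F] [NumberField F'] [Algebra K F] [Algebra K F'] [IsScalarTower K F F'] in
theorem norm_cj_le (x : HeightOneSpectrum (𝓞 F) → ZMod ℓ) (j : ZMod ℓ)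
    (v : HeightOneSpectrum (𝓞 F)) : ‖cj F' x j v‖ ≤ 1 := by
  rw [cj]
  split_ifs
  · rw [norm_zero]; exact zero_le_one
  · rw [ZMod.stdAddChar_apply, Circle.norm_coe]

omit [NumberField F'] [Algebra K F] [Algebra K F'] [IsScalarTower K F F'] in
theorem norm_mulI_cj_le (x : HeightOneSpectrum (𝓞 F) → ZMod ℓ) (j : ZMod ℓ)
    (I : Ideal (𝓞 F)) : ‖mulI (cj F' x j) I‖ ≤ 1 := by
  by_cases hI : I = 0
  · rw [hI, mulI_zero, norm_zero]; exact zero_le_one
  refine ideal_induction (P := fun I => ‖mulI (cj F' x j) I‖ ≤ 1) ?_ ?_ I hI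
  · rw [mulI_one, norm_one]
  · intro v J _ ih
    rw [mulI_mul, norm_mul, mulI_place]
    exact mul_le_one₀ ih (norm_nonneg _) (norm_cj_le x j v)

variable (F') in
/-- `ψbar_F χ_j` -/
noncomputable def psChi (x : HeightOneSpectrum (𝓞 F) → ZMod ℓ) (j : ZMod ℓ) (I : Ideal (𝓞 F)) : ℂ :=
  psbC f F I * mulI (cj F' x j) I

omit [NumberField F'] [Algebra K F'] [IsScalarTower K F F'] in
include hf in
theorem psChi_one (x : HeightOneSpectrum (𝓞 F) → ZMod ℓ) (j : ZMod ℓ) :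
    psChi F' f x j (1 : Ideal (𝓞 F)) = 1 := by
  rw [psChi, psbC_one, mulI_one, mul_one]

omit [NumberField F'] [Algebra K F'] [IsScalarTower K F F'] in
include hf in
theorem psChi_mul (x : HeightOneSpectrum (𝓞 F) → ZMod ℓ) (j : ZMod ℓ) (I J : Ideal (𝓞 F)) :
    psChi F' f x j (I * J) = psChi F' f x j I * psChi F' f x j J := by
  rw [psChi, psbC_mul, mulI_mul, psChi, psChi]
  ring

omit [NumberField F'] [Algebra K F'] [IsScalarTower K F F'] in
include hf in
theorem norm_psChi_le (x : HeightOneSpectrum (𝓞 F) → ZMod ℓ) (j : ZMod ℓ) (I : Ideal (𝓞 F)) :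
    ‖psChi F' f x j I‖ ≤ (Ideal.absNorm I : ℝ) ^ (1 / 2 : ℝ) := by
  rw [psChi, norm_mul]
  calc ‖psbC f F I‖ * ‖mulI (cj F' x j) I‖ ≤ (Ideal.absNorm I : ℝ) ^ (1 / 2 : ℝ) * 1 :=
        mul_le_mul (norm_psbC_le I) (norm_mulI_cj_le x j I) (norm_nonneg _) (by positivity)
    _ = _ := mul_one _

include hf in
/-- `L(ψbar_{F'}, s) = L(ψbar_F, s) ∏ L(ψbar_F χ_j, s)` -/
theorem step_Lf [IsGalois F F'] (hL : Module.finrank F F' = ℓ)
    (x : HeightOneSpectrum (𝓞 F) → ZMod ℓ) (hx : CFData ℓ F' x) (s : ℂ) (hs : 2 < s.re) :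
    Lf (psbC f F') s = Lf (psbC f F) s *
      ∏ j ∈ Finset.univ.erase (0 : ZMod ℓ), Lf (psChi (F := F) F' f x j) s := by
  have h1 := (hasProd_Lf (psbC f F') (psbC_one f F') (psbC_mul f F') (1 / 2) (by norm_num)
    norm_psbC_le s (by linarith)).2
  have h2 := hasProd_over (F := F) (F' := F') _ _ h1
  have h3 := (hasProd_Lf (psbC f F) (psbC_one f F) (psbC_mul f F) (1 / 2) (by norm_num)
    norm_psbC_le s (by linarith)).2
  have h4 : HasProd (fun v : HeightOneSpectrum (𝓞 F) => ∏ j ∈ Finset.univ.erase (0 : ZMod ℓ),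
      (1 - psChi (F := F) F' f x j v.asIdeal * (Ideal.absNorm v.asIdeal : ℂ) ^ (-s))⁻¹)
      (∏ j ∈ Finset.univ.erase (0 : ZMod ℓ), Lf (psChi (F := F) F' f x j) s) :=
    hasProd_prod fun j _ => (hasProd_Lf (psChi (F := F) F' f x j) (psChi_one f x j)
      (psChi_mul f x j) (1 / 2) (by norm_num) (norm_psChi_le f x j) s (by linarith)).2
  refine h2.unique ?_
  have e : (fun v : HeightOneSpectrum (𝓞 F) => ∏ w : Over F' v,
      (1 - psbC f F' w.1.asIdeal * (Ideal.absNorm w.1.asIdeal : ℂ) ^ (-s))⁻¹) = fun v =>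
      (1 - psbC f F v.asIdeal * (Ideal.absNorm v.asIdeal : ℂ) ^ (-s))⁻¹ *
      ∏ j ∈ Finset.univ.erase (0 : ZMod ℓ),
      (1 - psChi (F := F) F' f x j v.asIdeal * (Ideal.absNorm v.asIdeal : ℂ) ^ (-s))⁻¹ := by
    funext v
    rw [euler_cyc f hL x hx v s]
    simp only [psChi, mulI_place]
  rw [e]
  exact h3.mul h4

end

end Pool.Agent.Lib.MP_1a91b9_ntG
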