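import Pool.Agent.Lib.MP_1a91b9_ntG.Step
import Pool.Agent.Lib.MP_1a91b9_ntT.D6.Main
import Pool.Agent.Lib.MP_1a91b9_ntT.S7.Plug

/-!
# G4: the values of the partial L-series, in the form used by the cyclic step
-/

set_option autoImplicit false

namespace Pool.Agent.Lib.MP_1a91b9_ntG

open NumberField IsDedekindDomain Pool.Agent.Lib.MP_1a91b9_nt Pool.Agent.Lib.MP_1a91b9_ntT
  Pool.Agent.Lib.MP_1a91b9_ntT.S4 Pool.Agent.Lib.MP_1a91b9_ntT.S7 Pool.Agent.Lib.MP_1a91b9_ntT.Ell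

universe u

theorem valueProp_gen {q : ℕ} (hq : q.Prime) (f : 𝓞 K) (κ : ℂ)
    (hκ : ∀ A : ValuationSubring ℂ, Pl q A → ∀ k : ℕ, k.Coprime q → ∀ z : ℂ,
      (∃ l : ℤ × ℤ, (k : ℂ) * z = lp l) → E1 z / κ ∈ A)
    {F : Type u} [Field F] [NumberField F] [Algebra K F] (ε : 𝓞 K) (hε : IsCoprime ε (q : 𝓞 K))
    (hε1 : IsCoprime (ε ^ Module.finrank K F - 1) (q : 𝓞 K)) (hU : UQ q F)
    (hu : ∀ 𝔪 : Ideal (𝓞 F), 𝔪 ≤ Ideal.span {up f F} → ∀ u : (𝓞 F)ˣ, (u : 𝓞 F) - 1 ∈ 𝔪 →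
      Algebra.norm K ((u : 𝓞 F) : F) = 1)
    (htor : ∀ 𝔪 : Ideal (𝓞 F), 𝔪 ≤ Ideal.span {up f F} → ∀ u : (𝓞 F)ˣ, (u : 𝓞 F) - 1 ∈ 𝔪 →
      ∀ k : ℕ, 0 < k → u ^ k = 1 → u = 1) :
    ValueProp f q κ F := by
  intro m b t hm0 hmf hmq hb0 hbq _ htb htm
  obtain ⟨g, hg, hgs, hgA⟩ := d6_gen hq ε hε hε1 hU b m hb0 hbq hm0 hmq (hu m hmf) (htor m hmf)
    t htb htm
  refine ⟨g, hg, fun R hR s hs => hasSum_coe (hgs _ (repsU_of_isRep htm hR) s hs), ?_⟩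
  intro W hW
  rw [ValuationSubring.valuation_le_one_iff]
  exact hgA W hW κ (hκ W hW)

/-- The base field. -/
theorem baseVal_gen {q : ℕ} (f : 𝓞 K) [hf : IsMod f]
    (hfq : IsCoprime f (q : 𝓞 K)) (κ : ℂ)
    {F : Type u} [Field F] [NumberField F] [Algebra K F]
    (h : Function.Bijective (algebraMap K F)) (hV : ValueProp f q κ F)
    (hbs : ∀ g : ℂ → ℂ, Differentiable ℂ g →
      (∀ X : Set F, IsRepsU (Ideal.span {up f F}) (cls ⊤ (Ideal.span {up f F}) 1) X →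
        ∀ s : ℂ, 2 < s.re → HasSum (fun z : X => term s (z : F)) (g s)) →
      ∀ W : ValuationSubring ℂ, (q : ℂ)⁻¹ ∉ W → W.valuation (g 1 / κ) = 1) :
    BaseVal f q κ F := by
  have hm0 : Ideal.span {up f F} ≠ 0 := by
    rw [Ne, Ideal.zero_eq_bot, Ideal.span_singleton_eq_bot]
    intro h
    exact hf.ne ((FaithfulSMul.algebraMap_injective (𝓞 K) (𝓞 F)) (by rw [map_zero]; exact h))
  have h1 : (1 : 𝓞 F) ∉ Ideal.span {up f F} * 1 := by
    rw [mul_one, ← Ideal.eq_top_iff_one, ← Ideal.one_eq_top]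
    exact up_span_ne_top
  have hm2 : IsCoprime (Ideal.span {up f F}) (Ideal.span {(q : 𝓞 F)}) := by
    rw [Ideal.isCoprime_span_singleton_iff]
    have h := hfq.map (algebraMap (𝓞 K) (𝓞 F))
    rwa [map_natCast] at h
  obtain ⟨A, hA, hAR, -⟩ := hV (Ideal.span {up f F}) 1 1 hm0 le_rfl hm2 one_ne_zero
    isCoprime_one_left isCoprime_one_left (by rw [Ideal.one_eq_top]; trivial) h1
  refine ⟨A, hA, hAR, fun W hW => ?_⟩
  rw [finrank_bij h, pow_one]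
  refine hbs A hA (fun X hX s hs => ?_) W hW
  -- back from sets of representatives in `F` to sets in `𝓞 F`
  set R : Set (𝓞 F) := {z | (z : F) ∈ X} with hR
  have hX' : coeSet R = X := by
    ext z
    constructor
    · rintro ⟨w, hw, rfl⟩
      exact hw
    · intro hz
      obtain ⟨w, hw, -⟩ := hX.1 hz
      refine ⟨w, ?_, hw⟩
      change (w : F) ∈ X
      rw [hw]
      exact hz
  have hrep : IsRep (Ideal.span {up f F}) 1 1 R := by
    refine ⟨fun r hr => ?_, fun z hz => ?_, fun r hr r' hr' u hu' hrr => ?_⟩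
    · obtain ⟨w, hw, hw2⟩ := hX.1 hr
      have : w = r := coe_inj hw
      rw [← this, Ideal.one_eq_top]
      exact hw2
    · obtain ⟨v, ⟨hv1, hv2⟩, -⟩ := hX.2 (z : F) ⟨z, rfl, by rw [Ideal.one_eq_top] at hz; exact hz⟩
      refine ⟨v⁻¹, ?_, (v : 𝓞 F) * z, ?_, ?_⟩
      · have e : ((v⁻¹ : (𝓞 F)ˣ) : 𝓞 F) - 1 = -(((v⁻¹ : (𝓞 F)ˣ) : 𝓞 F) * ((v : 𝓞 F) - 1)) := by
          rw [mul_sub, Units.inv_mul]
          ring
        rw [e]
        exact neg_mem (Ideal.mul_mem_left _ _ hv1)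
      · have e : (((v : 𝓞 F) * z : 𝓞 F) : F) = ((v : 𝓞 F) : F) * (z : F) :=
          map_mul (algebraMap (𝓞 F) F) _ _
        change (((v : 𝓞 F) * z : 𝓞 F) : F) ∈ X
        rw [e]
        exact hv2
      · rw [← mul_assoc, Units.inv_mul, one_mul]
    · have hz : ∃ w : 𝓞 F, (w : F) = (r : F) ∧ w - 1 ∈ Ideal.span {up f F} * ⊤ := hX.1 hr
      obtain ⟨v, -, hv3⟩ := hX.2 (r : F) hz
      have e0 : ((1 : 𝓞 F) : F) = 1 := map_one (algebraMap (𝓞 F) F)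
      have e1 : (((u : 𝓞 F) * r : 𝓞 F) : F) = ((u : 𝓞 F) : F) * (r : F) :=
        map_mul (algebraMap (𝓞 F) F) _ _
      have a1 := hv3 1 ⟨by simp, by
        rw [Units.val_one, e0, one_mul]
        exact hr⟩
      have a2 := hv3 u ⟨hu', by
        have : ((r' : 𝓞 F) : F) ∈ X := hr'
        rw [hrr, e1] at this
        exact this⟩
      rw [hrr, a2, ← a1, Units.val_one, one_mul]
  have h2 := hAR R hrep s hs
  rw [← hX']
  have hinj : Function.Injective (fun z : 𝓞 F => (z : F)) := RingOfIntegers.coe_injective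
  exact (Equiv.Set.image (fun z : 𝓞 F => (z : F)) R hinj).hasSum_iff.1 h2

end Pool.Agent.Lib.MP_1a91b9_ntG
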