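import Pool.Agent.Lib.MP_1a91b9_ntT.S4.NormAbs
import Pool.Agent.Lib.MP_1a91b9_ntT.S4.Compare

/-!
# G4: the Hecke characters `ψ` of `K` of conductor `f` with `(O/f)^* = O^*`
-/

set_option autoImplicit false

namespace Pool.Agent.Lib.MP_1a91b9_ntG

open NumberField IsDedekindDomain Pool.Agent.Lib.MP_1a91b9_nt Pool.Agent.Lib.MP_1a91b9_ntT
  Pool.Agent.Lib.MP_1a91b9_ntT.S4

universe u

/-- The moduli `f` for which the units represent the prime residue classes exactly once. -/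
class IsMod (f : 𝓞 K) : Prop where
  ne : f ≠ 0
  inj : ∀ u : (𝓞 K)ˣ, f ∣ (u : 𝓞 K) - 1 → u = 1
  surj : ∀ a : 𝓞 K, IsCoprime a f → ∃ u : (𝓞 K)ˣ, f ∣ (u : 𝓞 K) * a - 1

section
variable (f : 𝓞 K)

open Classical in
/-- `ψ` on ideals of `𝓞 K`: the generator congruent to `1` modulo `f` if there is one, `0`
otherwise. -/
noncomputable def psK (I : Ideal (𝓞 K)) : 𝓞 K :=
  if h : ∃ a : 𝓞 K, f ∣ a - 1 ∧ Ideal.span {a} = I then h.choose else 0

/-- `ψ_F` on ideals of `𝓞 F`. -/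
noncomputable def ps (F : Type*) [Field F] [NumberField F] [Algebra K F] (I : Ideal (𝓞 F)) : 𝓞 K :=
  psK f (Ideal.relNorm (𝓞 K) I)

/-- the complex value of `ψ_F` -/
noncomputable def psC (F : Type*) [Field F] [NumberField F] [Algebra K F] (I : Ideal (𝓞 F)) : ℂ :=
  embK (ps f F I : K)

/-- the complex value of the conjugate of `ψ_F` -/
noncomputable def psbC (F : Type*) [Field F] [NumberField F] [Algebra K F] (I : Ideal (𝓞 F)) : ℂ :=
  (starRingEnd ℂ) (psC f F I)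

/-- The modulus in the ring of integers of an extension. -/
noncomputable abbrev up (F : Type*) [Field F] [Algebra K F] : 𝓞 F := algebraMap (𝓞 K) (𝓞 F) f

theorem IsMod.not_isUnit [hf : IsMod f] : ¬ IsUnit f := by
  intro h
  have h1 : (-1 : (𝓞 K)ˣ) = 1 := hf.inj (-1) (h.dvd)
  have h2 := congrArg (fun u : (𝓞 K)ˣ => (u : 𝓞 K)) h1
  simp only [Units.val_neg, Units.val_one] at h2
  have h3 : (2 : 𝓞 K) = 0 := by linear_combination -h2
  exact two_ne_zero h3

variable {f} [hf : IsMod f]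
include hf

theorem psK_unique (a b : 𝓞 K) (ha : f ∣ a - 1) (hb : f ∣ b - 1)
    (h : Ideal.span {a} = Ideal.span {b}) : a = b := by
  rw [Ideal.span_singleton_eq_span_singleton] at h
  obtain ⟨u, hu⟩ := h
  have h1 : f ∣ (u : 𝓞 K) - 1 := by
    have e : (u : 𝓞 K) - 1 = (b - 1) - (a - 1) * u := by rw [← hu]; ring
    rw [e]
    exact dvd_sub hb (Dvd.dvd.mul_right ha _)
  rw [hf.inj u h1, Units.val_one, mul_one] at hu
  exact hu

theorem psK_span (a : 𝓞 K) (ha : f ∣ a - 1) : psK f (Ideal.span {a}) = a := by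
  have h : ∃ b : 𝓞 K, f ∣ b - 1 ∧ Ideal.span {b} = Ideal.span {a} := ⟨a, ha, rfl⟩
  rw [psK, dif_pos h]
  exact psK_unique _ _ h.choose_spec.1 ha h.choose_spec.2

/-- the existence of the generator -/
theorem exists_gen (I : Ideal (𝓞 K)) (hI : IsCoprime I (Ideal.span {f})) :
    ∃ a : 𝓞 K, f ∣ a - 1 ∧ Ideal.span {a} = I := by
  obtain ⟨g, hg⟩ := (IsPrincipalIdealRing.principal I).principal
  have hg' : I = Ideal.span {g} := hg
  subst hg'
  rw [Ideal.isCoprime_span_singleton_iff] at hI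
  obtain ⟨u, hu⟩ := hf.surj g hI
  refine ⟨u * g, hu, ?_⟩
  rw [Ideal.span_singleton_eq_span_singleton]
  refine ⟨u⁻¹, ?_⟩
  rw [mul_comm, ← mul_assoc, Units.inv_mul, one_mul]

theorem psK_of_coprime (I : Ideal (𝓞 K)) (hI : IsCoprime I (Ideal.span {f})) :
    f ∣ psK f I - 1 ∧ Ideal.span {psK f I} = I := by
  have h := exists_gen I hI
  rw [psK, dif_pos h]
  exact h.choose_spec

omit hf in
theorem psK_of_not_coprime (I : Ideal (𝓞 K)) (hI : ¬ IsCoprime I (Ideal.span {f})) :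
    psK f I = 0 := by
  rw [psK, dif_neg]
  rintro ⟨a, ⟨c, hc⟩, rfl⟩
  apply hI
  rw [Ideal.isCoprime_span_singleton_iff]
  exact ⟨1, -c, by linear_combination hc⟩

theorem psK_one : psK f 1 = 1 := by
  have h := psK_span (f := f) 1 (by simp)
  rwa [Ideal.span_singleton_one, ← Ideal.one_eq_top] at h

theorem psK_mul (I J : Ideal (𝓞 K)) : psK f (I * J) = psK f I * psK f J := by
  by_cases hI : IsCoprime I (Ideal.span {f})
  · by_cases hJ : IsCoprime J (Ideal.span {f})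
    · obtain ⟨h1, h2⟩ := psK_of_coprime I hI
      obtain ⟨h3, h4⟩ := psK_of_coprime J hJ
      have h5 : f ∣ psK f I * psK f J - 1 := by
        have e : psK f I * psK f J - 1 = (psK f I - 1) * psK f J + (psK f J - 1) := by ring
        rw [e]
        exact dvd_add (Dvd.dvd.mul_right h1 _) h3
      have h6 := psK_span _ h5
      rw [← Ideal.span_singleton_mul_span_singleton, h2, h4] at h6
      exact h6
    · rw [psK_of_not_coprime J hJ, mul_zero, psK_of_not_coprime]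
      intro h
      exact hJ (IsCoprime.of_mul_left_right h)
  · rw [psK_of_not_coprime I hI, zero_mul, psK_of_not_coprime]
    intro h
    exact hI (IsCoprime.of_mul_left_left h)

theorem psK_pow (I : Ideal (𝓞 K)) (n : ℕ) : psK f (I ^ n) = psK f I ^ n := by
  induction n with
  | zero => rw [pow_zero, pow_zero, psK_one]
  | succ n ih => rw [pow_succ, psK_mul, ih, pow_succ]

end

section
variable (f : 𝓞 K) [hf : IsMod f] (F : Type*) [Field F] [NumberField F] [Algebra K F]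
include hf

theorem ps_one : ps f F 1 = 1 := by
  rw [ps, map_one, psK_one]

theorem ps_mul (I J : Ideal (𝓞 F)) : ps f F (I * J) = ps f F I * ps f F J := by
  rw [ps, map_mul, psK_mul]; rfl

theorem ps_zero : ps f F 0 = 0 := by
  rw [ps, map_zero]
  apply psK_of_not_coprime
  intro h
  have h1 := isCoprime_zero_left.mp h
  rw [Ideal.isUnit_iff, Ideal.span_singleton_eq_top] at h1
  exact IsMod.not_isUnit f h1

theorem psC_one : psC f F 1 = 1 := by rw [psC, ps_one]; simp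

theorem psC_mul (I J : Ideal (𝓞 F)) : psC f F (I * J) = psC f F I * psC f F J := by
  rw [psC, ps_mul]
  simp [psC]

theorem psC_zero : psC f F 0 = 0 := by rw [psC, ps_zero]; simp

theorem psbC_one : psbC f F 1 = 1 := by rw [psbC, psC_one, map_one]

theorem psbC_mul (I J : Ideal (𝓞 F)) : psbC f F (I * J) = psbC f F I * psbC f F J := by
  rw [psbC, psC_mul, map_mul]; rfl

theorem psbC_zero : psbC f F 0 = 0 := by rw [psbC, psC_zero, map_zero]

end

section
variable {f : 𝓞 K} {F : Type*} [Field F] [NumberField F] [Algebra K F]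

/-- `ψ_F` at a place above `f` -/
theorem ps_place_bad (w : HeightOneSpectrum (𝓞 F)) (h3 : up f F ∈ w.asIdeal) :
    ps f F w.asIdeal = 0 := by
  rw [ps]
  apply psK_of_not_coprime
  intro h
  have hle : Ideal.relNorm (𝓞 K) w.asIdeal ≤ w.asIdeal.under (𝓞 K) :=
    Ideal.relNorm_le_comap (𝓞 K) w.asIdeal
  have h3' : f ∈ w.asIdeal.under (𝓞 K) := h3
  have hsup := Ideal.isCoprime_iff_sup_eq.mp h
  have hle2 : Ideal.relNorm (𝓞 K) w.asIdeal ⊔ Ideal.span {f} ≤ w.asIdeal.under (𝓞 K) :=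
    sup_le hle ((Ideal.span_singleton_le_iff_mem _).mpr h3')
  rw [hsup, top_le_iff] at hle2
  have hp : (w.asIdeal.under (𝓞 K)).IsPrime := inferInstance
  exact hp.ne_top hle2

theorem psbC_bad (v : HeightOneSpectrum (𝓞 F)) (h3 : up f F ∈ v.asIdeal) :
    psbC f F v.asIdeal = 0 := by
  rw [psbC, psC, ps_place_bad v h3]
  simp

theorem isIntegral_psC (I : Ideal (𝓞 F)) : IsIntegral ℤ (psC f F I) := by
  have h : IsIntegral ℤ ((ps f F I : 𝓞 K) : K) := RingOfIntegers.isIntegral_coe _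
  exact h.map embK.toRingHom.toIntAlgHom

variable [hf : IsMod f]
include hf

theorem normsq_psC_of (I : Ideal (𝓞 F))
    (hI : IsCoprime (Ideal.relNorm (𝓞 K) I) (Ideal.span {f})) :
    psC f F I * psbC f F I = (Ideal.absNorm I : ℂ) := by
  have h1 := (psK_of_coprime _ hI).2
  have h2 : Ideal.absNorm (Ideal.relNorm (𝓞 K) I) = Ideal.absNorm I := by
    exact Ideal.absNorm_relNorm (𝓞 K) (𝓞 F) I
  rw [psbC, Complex.mul_conj, Complex.normSq_eq_norm_sq, psC, ← h2, ← h1]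
  have h3 : (Ideal.absNorm (Ideal.span {ps f F I}) : ℝ) =
      ‖embK ((ps f F I : 𝓞 K) : K)‖ ^ 2 := by
    rw [← norm_K, Ideal.absNorm_span_singleton]
    have h : ((Algebra.norm ℤ (ps f F I) : ℤ) : ℚ) = Algebra.norm ℚ ((ps f F I : 𝓞 K) : K) :=
      Algebra.coe_norm_int _
    rw [← h, Nat.cast_natAbs]
    push_cast
    rfl
  have h4 : psK f (Ideal.relNorm (𝓞 K) I) = ps f F I := rfl
  rw [h4, ← h3]
  norm_cast

/-- `ψ_F(I)` generates the norm of `I` -/
theorem ps_spec (I : Ideal (𝓞 F)) (hI : IsCoprime I (Ideal.span {up f F})) :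
    IsCoprime (Ideal.relNorm (𝓞 K) I) (Ideal.span {f}) ∧
    f ∣ ps f F I - 1 ∧ Ideal.span {ps f F I} = Ideal.relNorm (𝓞 K) I := by
  have hc : IsCoprime (Ideal.relNorm (𝓞 K) I) (Ideal.span {f}) := by
    obtain ⟨x, hx, y, hy, hxy⟩ := Ideal.isCoprime_iff_exists.mp hI
    rw [Ideal.mem_span_singleton] at hy
    obtain ⟨y', rfl⟩ := hy
    have h1 := nK_congr (F := F) f x 1 ⟨-y', by linear_combination hxy⟩
    rw [nK_one] at h1
    obtain ⟨w, hw⟩ := h1
    have hmem : nK x ∈ Ideal.relNorm (𝓞 K) I := by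
      rw [intNorm_eq]
      have hfree : Module.Free (𝓞 K) (𝓞 F) := inferInstance
      exact Ideal.norm_mem_relNorm (𝓞 K) I hx
    rw [Ideal.isCoprime_iff_exists]
    exact ⟨nK x, hmem, -f * w, by
      rw [Ideal.mem_span_singleton]
      exact ⟨-w, by ring⟩, by linear_combination hw⟩
  exact ⟨hc, psK_of_coprime _ hc⟩

theorem psC_mul_psbC (I : Ideal (𝓞 F)) (hI : IsCoprime I (Ideal.span {up f F})) :
    psC f F I * psbC f F I = (Ideal.absNorm I : ℂ) :=
  normsq_psC_of I (ps_spec I hI).1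

/-- the absolute value of `ψ_F` -/
theorem norm_psC_le (I : Ideal (𝓞 F)) :
    ‖psC f F I‖ ≤ (Ideal.absNorm I : ℝ) ^ (1 / 2 : ℝ) := by
  by_cases hI : IsCoprime (Ideal.relNorm (𝓞 K) I) (Ideal.span {f})
  · have h := normsq_psC_of I hI
    rw [psbC, Complex.mul_conj, Complex.normSq_eq_norm_sq] at h
    have h' : ‖psC f F I‖ ^ 2 = (Ideal.absNorm I : ℝ) := by exact_mod_cast h
    rw [← h', ← Real.sqrt_eq_rpow, Real.sqrt_sq (norm_nonneg _)]
  · rw [psC, ps, psK_of_not_coprime _ hI]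
    simp only [map_zero, norm_zero]
    positivity

theorem norm_psbC_le (I : Ideal (𝓞 F)) :
    ‖psbC f F I‖ ≤ (Ideal.absNorm I : ℝ) ^ (1 / 2 : ℝ) := by
  rw [psbC, RCLike.norm_conj]
  exact norm_psC_le I

/-- `ψ_F` of principal ideals in a class modulo `f` -/
theorem ps_span (t : 𝓞 F) (ht : IsCoprime (Ideal.span {t}) (Ideal.span {up f F})) :
    ∃ ε : (𝓞 K)ˣ, ∀ r : 𝓞 F, up f F ∣ r - t → ps f F (Ideal.span {r}) = ε * nK r := by
  have hc : IsCoprime (Ideal.span {nK t}) (Ideal.span {f}) := by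
    rw [Ideal.isCoprime_span_singleton_iff] at ht ⊢
    obtain ⟨x, y, hxy⟩ := ht
    have h1 := nK_congr (F := F) f (x * t) 1 ⟨-y, by linear_combination hxy⟩
    rw [nK_mul, nK_one] at h1
    obtain ⟨w, hw⟩ := h1
    exact ⟨nK x, -w, by linear_combination hw⟩
  obtain ⟨γ, h3, h4⟩ := exists_gen _ hc
  rw [Ideal.span_singleton_eq_span_singleton] at h4
  obtain ⟨u, hu⟩ := h4
  refine ⟨u⁻¹, fun r hr => ?_⟩
  have h5 := nK_congr (F := F) f r t hr
  have huu : ((u⁻¹ : (𝓞 K)ˣ) : 𝓞 K) * u = 1 := Units.inv_mul u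
  have h6 : f ∣ ((u⁻¹ : (𝓞 K)ˣ) : 𝓞 K) * nK r - 1 := by
    have e : ((u⁻¹ : (𝓞 K)ˣ) : 𝓞 K) * nK r - 1 = ((u⁻¹ : (𝓞 K)ˣ) : 𝓞 K) * (nK r - nK t) + (γ - 1) := by
      rw [← hu]
      linear_combination γ * huu
    rw [e]
    exact dvd_add (Dvd.dvd.mul_left h5 _) h3
  rw [ps, relNorm_span]
  have h7 : Ideal.span {nK r} = Ideal.span {((u⁻¹ : (𝓞 K)ˣ) : 𝓞 K) * nK r} := by
    rw [Ideal.span_singleton_eq_span_singleton]
    exact ⟨u⁻¹, by rw [mul_comm]⟩
  rw [h7, psK_span _ h6]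

end

end Pool.Agent.Lib.MP_1a91b9_ntG
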