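import Pool.Agent.Lib.MP_1a91b9_ntG.Cyc
import Pool.Agent.Lib.MP_1a91b9_ntG.Family

/-!
# G4: the characters of a cyclic extension are ray class characters
-/

set_option autoImplicit false

namespace Pool.Agent.Lib.MP_1a91b9_ntG

open NumberField IsDedekindDomain Pool.Agent.Lib.MP_1a91b9_nt Pool.Agent.Lib.MP_1a91b9_ntT
  Pool.Agent.Lib.MP_1a91b9_ntT.S4

universe u

section
variable {F F' : Type u} [Field F] [NumberField F] [Field F'] [NumberField F'] [Algebra F F']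
  {ℓ : ℕ} [hℓ : Fact ℓ.Prime]

/-- the inverse modulo `m` -/
theorem exists_inv_mod {R : Type*} [CommRing R] (m : Ideal R) (z z' : R)
    (hzm : IsCoprime (Ideal.span {z}) m) (hzz : z - z' ∈ m) :
    ∃ y : R, z * y - 1 ∈ m ∧ z' * y - 1 ∈ m := by
  obtain ⟨a, ha, c, hc, hac⟩ := Ideal.isCoprime_iff_exists.mp hzm
  rw [Ideal.mem_span_singleton] at ha
  obtain ⟨y, rfl⟩ := ha
  have e1 : z * y - 1 ∈ m := by
    have e : z * y - 1 = -c := by linear_combination hac
    rw [e]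
    exact m.neg_mem hc
  have e2 : z' * y - 1 ∈ m := by
    have e : z' * y - 1 = (z * y - 1) - (z - z') * y := by ring
    rw [e]
    exact m.sub_mem e1 (m.mul_mem_right _ hzz)
  exact ⟨y, e1, e2⟩

theorem addI_span_mul (x : HeightOneSpectrum (𝓞 F) → ZMod ℓ) (z y : 𝓞 F) (hz : z ≠ 0)
    (hy : y ≠ 0) : addI x (Ideal.span {z * y}) = addI x (Ideal.span {z}) +
      addI x (Ideal.span {y}) := by
  have hs0 : ∀ w : 𝓞 F, w ≠ 0 → Ideal.span {w} ≠ (0 : Ideal (𝓞 F)) := by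
    intro w hw h
    rw [Ideal.zero_eq_bot, Ideal.span_singleton_eq_bot] at h
    exact hw h
  rw [← Ideal.span_singleton_mul_span_singleton, addI_mul _ _ _ (hs0 z hz) (hs0 y hy)]

theorem addI_span_eq (x : HeightOneSpectrum (𝓞 F) → ZMod ℓ) (hx : CFData ℓ F' x)
    (m : Ideal (𝓞 F)) (hm : ∀ v : HeightOneSpectrum (𝓞 F), Ram F' v → m ≤ v.asIdeal)
    (z z' y : 𝓞 F) (hz : z ≠ 0) (hz' : z' ≠ 0) (e1 : z * y - 1 ∈ m) (e2 : z' * y - 1 ∈ m) :
    addI x (Ideal.span {z}) = addI x (Ideal.span {z'}) := by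
  by_cases hy : y = 0
  · -- then `m` is the unit ideal
    subst hy
    have hm1 : m = ⊤ := by
      rw [Ideal.eq_top_iff_one]
      rw [mul_zero, zero_sub] at e1
      exact m.neg_mem_iff.mp e1
    have hno : ∀ v : HeightOneSpectrum (𝓞 F), ¬ Ram F' v := by
      intro v hv
      have := hm v hv
      rw [hm1, top_le_iff] at this
      exact v.isPrime.ne_top this
    have r1 := hx.recip z hz fun v hv => absurd hv (hno v)
    have r2 := hx.recip z' hz' fun v hv => absurd hv (hno v)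
    rw [r1, r2]
  have r1 := hx.recip (z * y) (mul_ne_zero hz hy) fun v hv => hm v hv e1
  have r2 := hx.recip (z' * y) (mul_ne_zero hz' hy) fun v hv => hm v hv e2
  rw [addI_span_mul x z y hz hy] at r1
  rw [addI_span_mul x z' y hz' hy] at r2
  exact add_right_cancel (r1.trans r2.symm)

/-- the additive function is a ray class invariant -/
theorem addI_ray (x : HeightOneSpectrum (𝓞 F) → ZMod ℓ) (hx : CFData ℓ F' x) (m : Ideal (𝓞 F))
    (hm0 : m ≠ 0) (hm : ∀ v : HeightOneSpectrum (𝓞 F), Ram F' v → m ≤ v.asIdeal)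
    (I J : Ideal (𝓞 F)) (hI : IsCoprime I m) (h : RayEq m I J) : addI x I = addI x J := by
  obtain ⟨b, z, z', hb, hz, hz', h1, h2, h3, h4⟩ := h.normalize m hm0
  have hI0 : I ≠ 0 := by
    intro h0
    rw [h0, zero_mul, Ideal.zero_eq_bot, eq_comm, Ideal.span_singleton_eq_bot] at h1
    exact hz h1
  have hJ0 : J ≠ 0 := by
    intro h0
    rw [h0, zero_mul, Ideal.zero_eq_bot, eq_comm, Ideal.span_singleton_eq_bot] at h2
    exact hz' h2
  have hzm : IsCoprime (Ideal.span {z}) m := by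
    rw [← h1]
    exact hI.mul_left h4
  obtain ⟨y, e1, e2⟩ := exists_inv_mod m z z' hzm (Ideal.mul_le_left h3)
  have h5 := addI_span_eq x hx m hm z z' y hz hz' e1 e2
  rw [← h1, ← h2, addI_mul _ _ _ hI0 hb, addI_mul _ _ _ hJ0 hb] at h5
  exact add_right_cancel h5

omit [NumberField F'] in
/-- the multiplicative function in terms of the additive one -/
theorem mulI_cj (x : HeightOneSpectrum (𝓞 F) → ZMod ℓ) (m : Ideal (𝓞 F))
    (hm : ∀ v : HeightOneSpectrum (𝓞 F), Ram F' v → m ≤ v.asIdeal) (j : ZMod ℓ)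
    (I : Ideal (𝓞 F)) (hI0 : I ≠ 0) (hI : IsCoprime I m) :
    mulI (cj F' x j) I = ZMod.stdAddChar (j * addI x I) := by
  refine ideal_induction (P := fun I => IsCoprime I m →
    mulI (cj F' x j) I = ZMod.stdAddChar (j * addI x I)) ?_ ?_ I hI0 hI
  · intro _
    rw [mulI_one, addI_one, mul_zero, AddChar.map_zero_eq_one]
  · intro v J hJ ih hc
    rw [mulI_mul, addI_mul x J _ hJ v.ne_bot, ih hc.of_mul_left_left, mulI_place, addI_place,
      mul_add, AddChar.map_add_eq_mul, cj, if_neg]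
    intro hv
    have h1 := hc.of_mul_left_right
    have h2 := (le_iff_not_coprime m v).mp (hm v hv)
    exact h2 h1

open Classical in
/-- the character modulo `m` -/
noncomputable def chiM (F' : Type u) [Field F'] [NumberField F'] [Algebra F F']
    (x : HeightOneSpectrum (𝓞 F) → ZMod ℓ) (m : Ideal (𝓞 F)) (j : ZMod ℓ) (I : Ideal (𝓞 F)) : ℂ :=
  if IsCoprime I m then mulI (cj F' x j) I else 0

theorem chiM_of {x : HeightOneSpectrum (𝓞 F) → ZMod ℓ} {m : Ideal (𝓞 F)} {j : ZMod ℓ}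
    {I : Ideal (𝓞 F)} (h : IsCoprime I m) : chiM F' x m j I = mulI (cj F' x j) I := if_pos h

theorem chiM_of_not {x : HeightOneSpectrum (𝓞 F) → ZMod ℓ} {m : Ideal (𝓞 F)} {j : ZMod ℓ}
    {I : Ideal (𝓞 F)} (h : ¬ IsCoprime I m) : chiM F' x m j I = 0 := if_neg h

theorem norm_chiM_le (x : HeightOneSpectrum (𝓞 F) → ZMod ℓ) (m : Ideal (𝓞 F)) (j : ZMod ℓ)
    (I : Ideal (𝓞 F)) : ‖chiM F' x m j I‖ ≤ 1 := by
  rw [chiM]
  split_ifs
  · exact norm_mulI_cj_le x j I
  · rw [norm_zero]; exact zero_le_one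

theorem chiM_ray (x : HeightOneSpectrum (𝓞 F) → ZMod ℓ) (hx : CFData ℓ F' x) (m : Ideal (𝓞 F))
    (hm0 : m ≠ 0) (hm1 : m ≠ 1) (hm : ∀ v : HeightOneSpectrum (𝓞 F), Ram F' v → m ≤ v.asIdeal)
    (j : ZMod ℓ) (I J : Ideal (𝓞 F)) (h : RayEq m I J) : chiM F' x m j I = chiM F' x m j J := by
  by_cases hI : IsCoprime I m
  · have hJ := h.coprime hI
    rw [chiM_of hI, chiM_of hJ, mulI_cj x m hm j I (ne_zero_of_coprime hm1 hI) hI,
      mulI_cj x m hm j J (ne_zero_of_coprime hm1 hJ) hJ, addI_ray x hx m hm0 hm I J hI h]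
  · rw [chiM_of_not hI, chiM_of_not fun hJ => hI (h.symm.coprime hJ)]

/-- the values are roots of unity of order `ℓ` -/
theorem chiM_pow (x : HeightOneSpectrum (𝓞 F) → ZMod ℓ) (m : Ideal (𝓞 F)) (hm1 : m ≠ 1)
    (hm : ∀ v : HeightOneSpectrum (𝓞 F), Ram F' v → m ≤ v.asIdeal) (j : ZMod ℓ)
    (I : Ideal (𝓞 F)) (hI : IsCoprime I m) : chiM F' x m j I ^ ℓ = 1 := by
  rw [chiM_of hI, mulI_cj x m hm j I (ne_zero_of_coprime hm1 hI) hI, ← AddChar.map_nsmul_eq_pow,
    nsmul_eq_mul, ZMod.natCast_self, zero_mul, AddChar.map_zero_eq_one]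

end

end Pool.Agent.Lib.MP_1a91b9_ntG
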