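import Pool.Agent.Lib.MP_1a91b9_ntG.Psi
import Pool.Agent.Lib.MP_1a91b9_ntT.S4.UnfoldL
import Pool.Agent.Lib.MP_1a91b9_ntT.S4.LComp
import Pool.Agent.Lib.MP_1a91b9_ntT.S4.TwoAdic

/-!
# G4: the unfolding of the L-series `L(ψbar_F X, s)`
-/

set_option autoImplicit false

namespace Pool.Agent.Lib.MP_1a91b9_ntG

open NumberField IsDedekindDomain Pool.Agent.Lib.MP_1a91b9_nt Pool.Agent.Lib.MP_1a91b9_ntT
  Pool.Agent.Lib.MP_1a91b9_ntT.S4

universe u

section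
variable {f : 𝓞 K} [hf : IsMod f] {F : Type u} [Field F] [NumberField F] [Algebra K F]
include hf

/-- The value at one ideal. -/
theorem unfold_term (I b : Ideal (𝓞 F)) (r : 𝓞 F) (ε : 𝓞 K) (hb : b ≠ 0) (hr0 : r ≠ 0)
    (hpb : psbC f F b ≠ 0) (hI : I * b = Ideal.span {r})
    (hε : ps f F (Ideal.span {r}) = ε * nK r) (x s : ℂ) :
    psbC f F I * x * (Ideal.absNorm I : ℂ) ^ (-s) =
      x * ((starRingEnd ℂ) (embK (ε : K)) / psbC f F b) * (Ideal.absNorm b : ℂ) ^ s *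
        ((starRingEnd ℂ) (Nm (r : F)) * ((‖Nm (r : F)‖ : ℝ) : ℂ) ^ (-2 * s)) := by
  have hNb : (Ideal.absNorm b : ℂ) ≠ 0 := by
    have := Ideal.absNorm_ne_zero_iff_mem_nonZeroDivisors.mpr
      (mem_nonZeroDivisors_iff_ne_zero.mpr hb)
    exact_mod_cast this
  have hpsi : psC f F I * psC f F b = embK (ε : K) * Nm (r : F) := by
    rw [← psC_mul, hI, psC, hε, ← embK_nK]
    change embK (algebraMap (𝓞 K) K (_ * _)) = _
    rw [map_mul, map_mul]
  have hpsib : psbC f F I * psbC f F b =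
      (starRingEnd ℂ) (embK (ε : K)) * (starRingEnd ℂ) (Nm (r : F)) := by
    rw [psbC, psbC, ← map_mul, hpsi, map_mul]
  have hnorm : (Ideal.absNorm I : ℂ) ^ (-s) =
      (Ideal.absNorm b : ℂ) ^ s * ((‖Nm (r : F)‖ : ℝ) : ℂ) ^ (-2 * s) := by
    rw [← absNorm_cpow _ hr0, ← hI, map_mul, Nat.cast_mul, Complex.natCast_mul_natCast_cpow,
      mul_comm ((Ideal.absNorm I : ℂ) ^ (-s)), ← mul_assoc, ← Complex.cpow_add _ _ hNb,
      add_neg_cancel, Complex.cpow_zero, one_mul]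
  have hq : psbC f F I = (starRingEnd ℂ) (embK (ε : K)) *
      (starRingEnd ℂ) (Nm (r : F)) / psbC f F b := by
    rw [eq_div_iff hpb, hpsib]
  rw [hnorm, hq]
  ring

variable (f) in
/-- The unfolding of `L(ψbar_F X, s)` over the ideal and residue classes. -/
theorem unfold_L (c m : Ideal (𝓞 F)) (hc0 : c ≠ 0) (hm0 : m ≠ 0) (hm1 : m ≠ 1)
    (h3 : m ≤ Ideal.span {up f F}) :
    ∃ (ι : Type u) (_ : Fintype ι) (b : ι → Ideal (𝓞 F)) (t : ι → 𝓞 F) (J : ι → Ideal (𝓞 F))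
      (k : ι → ℂ),
      (∀ i, b i ≠ 0 ∧ IsCoprime (b i) c ∧ IsCoprime (b i) m ∧ t i ∈ b i ∧
        t i ∉ m * b i ∧ IsCoprime (J i) m ∧ IsIntegral ℤ (k i * (Ideal.absNorm (b i) : ℂ))) ∧
      ∀ A : ι → ℂ → ℂ, (∀ i R, IsRep m (b i) (t i) R → ∀ s : ℂ, 2 < s.re →
        HasSum (fun r : R => (starRingEnd ℂ) (Nm ((r : 𝓞 F) : F)) *
          ((‖Nm ((r : 𝓞 F) : F)‖ : ℝ) : ℂ) ^ (-2 * s)) (A i s)) →
      ∀ X : Ideal (𝓞 F) → ℂ, (∀ I, ¬ IsCoprime I m → X I = 0) → (∀ I, ‖X I‖ ≤ 1) →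
        (∀ I J, RayEq m I J → X I = X J) → ∀ s : ℂ, 2 < s.re →
        Lf (fun I => psbC f F I * X I) s =
          ∑ i, X (J i) * k i * (Ideal.absNorm (b i) : ℂ) ^ s * A i s := by
  classical
  obtain ⟨ι, hι, b, t, J, hb, hunf⟩ := unfold_index m c hm0 hm1 hc0
  have h3m : Ideal.span {up f F} ∣ m := Ideal.dvd_iff_le.mpr h3
  have hbm : ∀ i, IsCoprime (b i) m := fun i => (IsCoprime.of_mul_right_right (hb i).2.1)
  have hb2 : ∀ i, IsCoprime (b i) c := fun i =>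
    IsCoprime.of_mul_right_left (hb i).2.1
  have hb3 : ∀ i, IsCoprime (b i) (Ideal.span {up f F}) := fun i =>
    (hbm i).of_isCoprime_of_dvd_right h3m
  have ht3 : ∀ i, IsCoprime (Ideal.span {t i}) (Ideal.span {up f F}) := by
    intro i
    rw [← (hb i).2.2.2.2.2.1]
    exact ((hb i).2.2.2.2.2.2.of_isCoprime_of_dvd_right h3m).mul_left (hb3 i)
  choose ε hε using fun i => ps_span (t i) (ht3 i)
  have hNb : ∀ i, (Ideal.absNorm (b i) : ℂ) ≠ 0 := by
    intro i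
    have := Ideal.absNorm_ne_zero_iff_mem_nonZeroDivisors.mpr
      (mem_nonZeroDivisors_iff_ne_zero.mpr (hb i).1)
    exact_mod_cast this
  have hpb : ∀ i, psbC f F (b i) ≠ 0 := by
    intro i h
    apply hNb i
    rw [← psC_mul_psbC (b i) (hb3 i), h, mul_zero]
  refine ⟨ι, hι, b, t, J, fun i => (starRingEnd ℂ) (embK ((ε i : 𝓞 K) : K)) / psbC f F (b i),
    ?_, ?_⟩
  · intro i
    refine ⟨(hb i).1, hb2 i, hbm i, (hb i).2.2.1, (hb i).2.2.2.1, (hb i).2.2.2.2.2.2, ?_⟩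
    rw [← psC_mul_psbC (b i) (hb3 i)]
    have e : (starRingEnd ℂ) (embK ((ε i : 𝓞 K) : K)) / psbC f F (b i) *
        (psC f F (b i) * psbC f F (b i)) =
        (starRingEnd ℂ) (embK ((ε i : 𝓞 K) : K)) * psC f F (b i) := by
      field_simp [hpb i]
    rw [e]
    refine IsIntegral.mul ?_ (isIntegral_psC _)
    have h : IsIntegral ℤ ((ε i : 𝓞 K) : K) := RingOfIntegers.isIntegral_coe _
    exact h.map ((starRingEnd ℂ).comp embK.toRingHom).toIntAlgHom
  intro A hA X hX0 hX1 hXr s hs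
  choose R hR using fun i => exists_isRep m (b i) (t i)
  obtain ⟨e, hinj, he, hsurj⟩ := hunf R hR
  set g : Ideal (𝓞 F) → ℂ := fun I => psbC f F I * X I * (Ideal.absNorm I : ℂ) ^ (-s) with hg
  have hs0 : s.re ≠ 0 := by
    intro h
    rw [h] at hs
    linarith
  have hsum : Summable g := by
    refine Summable.of_norm ?_
    refine summable_ideals_mul F (fun I => psbC f F I * X I) 1 (1 / 2) (fun I => ?_) s
      (by linarith) hs0
    rw [norm_mul, one_mul]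
    calc ‖psbC f F I‖ * ‖X I‖ ≤ (Ideal.absNorm I : ℝ) ^ (1 / 2 : ℝ) * 1 :=
          mul_le_mul (norm_psbC_le I) (hX1 I) (norm_nonneg _) (by positivity)
      _ = _ := mul_one _
  have hsupp : Function.support g ⊆ Set.range e := by
    intro I hI
    by_cases hc : IsCoprime I m
    · exact hsurj I hc
    · exfalso
      apply hI
      simp only [hg]
      rw [hX0 I hc, mul_zero, zero_mul]
  have h1 : Lf (fun I => psbC f F I * X I) s = ∑' x, g (e x) := (hinj.tsum_eq hsupp).symm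
  rw [h1]
  have hsum' : Summable fun x => g (e x) := hsum.comp_injective hinj
  rw [hsum'.tsum_sigma, tsum_fintype]
  refine Finset.sum_congr rfl fun i _ => ?_
  set C : ℂ := X (J i) * ((starRingEnd ℂ) (embK ((ε i : 𝓞 K) : K)) / psbC f F (b i)) *
      (Ideal.absNorm (b i) : ℂ) ^ s with hC
  have hterm : ∀ r : R i, g (e ⟨i, r⟩) = C * ((starRingEnd ℂ) (Nm ((r : 𝓞 F) : F)) *
          ((‖Nm ((r : 𝓞 F) : F)‖ : ℝ) : ℂ) ^ (-2 * s)) := by
    intro r
    obtain ⟨g1, g2, g3⟩ := he ⟨i, r⟩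
    have g2' : e ⟨i, r⟩ * b i = Ideal.span {(r : 𝓞 F)} := g2
    have hr0 : (r : 𝓞 F) ≠ 0 := by
      intro h
      rw [h, Ideal.span_singleton_zero, ← Ideal.zero_eq_bot] at g2'
      rcases mul_eq_zero.mp g2' with h' | h'
      · exact ne_zero_of_coprime hm1 g1 h'
      · exact (hb i).1 h'
    have hrt : up f F ∣ (r : 𝓞 F) - t i := by
      rw [← Ideal.mem_span_singleton]
      exact h3 (Ideal.mul_le_left ((hR i).mem r r.2))
    have hXJ : X (e ⟨i, r⟩) = X (J i) := hXr _ _ g3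
    rw [hC, ← hXJ]
    exact unfold_term (e ⟨i, r⟩) (b i) r (ε i) (hb i).1 hr0 (hpb i) g2' (hε i r hrt) _ s
  have h2 := (hA i (R i) (hR i) s hs).mul_left C
  rw [tsum_congr hterm]
  exact h2.tsum_eq

omit hf in
theorem up_span_ne_top [hf : IsMod f] : Ideal.span {up f F} ≠ 1 := by
  intro h
  rw [Ideal.one_eq_top, Ideal.span_singleton_eq_top] at h
  have h1 := h.map (Algebra.norm (𝓞 K) : 𝓞 F →* 𝓞 K)
  rw [Algebra.norm_algebraMap] at h1
  have h2 : Module.finrank (𝓞 K) (𝓞 F) ≠ 0 := Module.finrank_pos.ne'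
  exact IsMod.not_isUnit f (isUnit_pow_iff h2 |>.mp h1)

theorem norm_psbC_mul_le (X : Ideal (𝓞 F) → ℂ) (I : Ideal (𝓞 F)) (hX : ‖X I‖ ≤ 1) :
    ‖psbC f F I * X I‖ ≤ (Ideal.absNorm I : ℝ) ^ (1 / 2 : ℝ) := by
  rw [norm_mul]
  calc ‖psbC f F I‖ * ‖X I‖ ≤ (Ideal.absNorm I : ℝ) ^ (1 / 2 : ℝ) * 1 :=
        mul_le_mul (norm_psbC_le I) hX (norm_nonneg _) (by positivity)
    _ = _ := mul_one _

/-- `L(ψbar 1_m, s)` -/
theorem Lf_indC (m : Ideal (𝓞 F)) (B : Finset (HeightOneSpectrum (𝓞 F)))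
    (hB : ∀ v, v ∈ B ↔ m ≤ v.asIdeal) (s : ℂ) (hs : 2 < s.re) :
    Lf (fun I => psbC f F I * indC m I) s =
      Lf (psbC f F) s * ∏ v ∈ B, (1 - psbC f F v.asIdeal * (Ideal.absNorm v.asIdeal : ℂ) ^ (-s)) := by
  have h := compare_Lf (fun I => psbC f F I * indC m I) (psbC f F)
    (by rw [psbC_one, indC_one, mul_one])
    (fun I J => by
      rw [psbC_mul, indC_mul]; ring)
    (fun I => norm_psbC_mul_le _ I (norm_indC_le m I)) (psbC_one f F) (psbC_mul f F) norm_psbC_le B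
    (fun v hv => by
      have h1 : IsCoprime v.asIdeal m := by
        by_contra h2
        exact hv ((hB v).mpr ((le_iff_not_coprime m v).mpr h2))
      change psbC f F v.asIdeal * indC m v.asIdeal = _
      rw [indC_of h1, mul_one]) s hs
  rw [← h]
  have e : ∏ v ∈ B, (1 - psbC f F v.asIdeal * indC m v.asIdeal *
      (Ideal.absNorm v.asIdeal : ℂ) ^ (-s)) = 1 := by
    refine Finset.prod_eq_one fun v hv => ?_
    rw [indC_of_not ((le_iff_not_coprime m v).mp ((hB v).mp hv)), mul_zero, zero_mul, sub_zero]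
  rw [e, mul_one]

end

end Pool.Agent.Lib.MP_1a91b9_ntG
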